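import Pool.Agent.FX.Final

/-! # Paths with many turns in exponential last passage percolation on a square -/

open Pool.Agent.FX

namespace Pool.Agent.Results.MP_f13560_pr.ManyTurns

/-- For every `ε > 0` and all large `N` (the square has side `n = N + 1`): every up-right path with at
least `ε N` turns is strictly less likely to be the longest path than the corner path; at most
`exp (ε N)` paths are at least as likely as the corner path; and every path `v` satisfies
`P(C(v)) ≤ exp (ε N) (2/3)^(turns v) P(C(corner))`. -/
theorem result (ε : ℝ) (hε : 0 < ε) : ∃ N₀ : ℕ, ∀ N ≥ N₀,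
    (∀ v, IsPath N v → ε * N ≤ turns N v →
      law N (cone N v) < law N (cone N (corner N))) ∧
    (Set.ncard {S | ∃ v, IsPath N v ∧ law N (cone N (corner N)) ≤ law N (cone N v) ∧
      S = trace N v} : ℝ) ≤ Real.exp (ε * N) ∧
    ∀ v, IsPath N v → law N (cone N v) ≤
      ENNReal.ofReal (Real.exp (ε * N) * (2 / 3) ^ turns N v) * law N (cone N (corner N)) :=
  final hε

end Pool.Agent.Results.MP_f13560_pr.ManyTurns
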